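import Pool.Agent.H669.FW.Add

/-!
For a given degree, the numbers of the points for which the critical degree is close to an
exceptional one.
-/

set_option autoImplicit false

namespace Pool.Agent.H669.FW

open Finset Pool.Agent.H929.BW

lemma card_interval (S : Finset ℕ) (x L : ℝ) (h : ∀ r ∈ S, x < r ∧ (r : ℝ) < x + L) :
    (S.card : ℝ) ≤ max (L + 1) 0 := by
  classical
  have h1 : (S.image fun k : ℕ => (k : ℤ)) ⊆ Finset.Icc (⌊x⌋ + 1) (⌈x + L⌉ - 1) := by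
    intro z hz
    obtain ⟨k, hk, rfl⟩ := mem_image.1 hz
    obtain ⟨h2, h3⟩ := h k hk
    rw [Finset.mem_Icc]
    constructor
    · have h4 : ((⌊x⌋ : ℤ) : ℝ) < ((k : ℤ) : ℝ) := lt_of_le_of_lt (Int.floor_le x) (by exact_mod_cast h2)
      have h5 : ⌊x⌋ < (k : ℤ) := by exact_mod_cast h4
      omega
    · have h4 : ((k : ℤ) : ℝ) < ((⌈x + L⌉ : ℤ) : ℝ) :=
        lt_of_lt_of_le (by exact_mod_cast h3) (Int.le_ceil _)
      have h5 : (k : ℤ) < ⌈x + L⌉ := by exact_mod_cast h4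
      omega
  have h2 := card_le_card h1
  rw [card_image_of_injective _ (fun a b hab => by exact_mod_cast hab), Int.card_Icc] at h2
  have h3 : (S.card : ℝ) ≤ ((⌈x + L⌉ - 1 + 1 - (⌊x⌋ + 1)).toNat : ℝ) := by exact_mod_cast h2
  refine h3.trans ?_
  rcases le_total (⌈x + L⌉ - 1 + 1 - (⌊x⌋ + 1)) 0 with h4 | h4
  · rw [Int.toNat_of_nonpos h4]
    simp
  · refine le_max_of_le_left ?_
    have h5 : (((⌈x + L⌉ - 1 + 1 - (⌊x⌋ + 1)).toNat : ℤ) : ℝ) =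
        ((⌈x + L⌉ - 1 + 1 - (⌊x⌋ + 1) : ℤ) : ℝ) := by rw [Int.toNat_of_nonneg h4]
    have h6 : (((⌈x + L⌉ - 1 + 1 - (⌊x⌋ + 1)).toNat : ℕ) : ℝ) =
        (((⌈x + L⌉ - 1 + 1 - (⌊x⌋ + 1)).toNat : ℤ) : ℝ) := by push_cast; rfl
    rw [h6, h5]
    push_cast
    have h7 := Int.ceil_lt_add_one (x + L)
    have h8 := Int.lt_floor_add_one x
    linarith

lemma pow_sub_le (p : ℕ) {a b c : ℝ} (ha : 0 ≤ a) (hab : a ≤ b) (hbc : b ≤ a + c) (hc : 0 ≤ c) :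
    b ^ (p + 1) - a ^ (p + 1) ≤ (p + 1) * c * b ^ p := by
  have hb : 0 ≤ b := ha.trans hab
  induction p with
  | zero => simp; linarith
  | succ p ih =>
    have h1 : b ^ (p + 1 + 1) - a ^ (p + 1 + 1) =
        b * (b ^ (p + 1) - a ^ (p + 1)) + (b - a) * a ^ (p + 1) := by ring
    have h2 : (b - a) * a ^ (p + 1) ≤ c * b ^ (p + 1) :=
      mul_le_mul (by linarith) (pow_le_pow_left₀ ha hab _) (by positivity) hc
    have h3 := mul_le_mul_of_nonneg_left ih hb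
    rw [h1]
    calc _ ≤ b * ((p + 1) * c * b ^ p) + c * b ^ (p + 1) := add_le_add h3 h2
      _ = _ := by push_cast; ring

lemma sum_inv (M : ℕ) : ∑ m ∈ Finset.Icc 1 M, (1 : ℝ) / (m : ℝ) ^ 2 ≤ 2 - 2 / (M + 1) := by
  induction M with
  | zero => simp
  | succ M ih =>
    rw [Finset.sum_Icc_succ_top (by omega)]
    have h1 : (1 : ℝ) / ((M + 1 : ℕ) : ℝ) ^ 2 ≤ 2 / (M + 1) - 2 / (M + 2) := by
      have e : (2 : ℝ) / (M + 1) - 2 / (M + 2) = 2 / ((M + 1) * (M + 2)) := by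
        field_simp
        ring
      rw [e, div_le_div_iff₀ (by positivity) (by positivity)]
      push_cast
      nlinarith [(Nat.cast_nonneg M : (0 : ℝ) ≤ M)]
    push_cast at h1 ⊢
    have e2 : (2 : ℝ) / ((M : ℝ) + 1 + 1) = 2 / (M + 2) := by congr 1; ring
    rw [e2]
    linarith

/-- The bad numbers for a given multiplicity. -/
lemma card_one (p m : ℕ) (hm : 1 ≤ m) (C : ℕ) (D : ℝ) (hD : 0 ≤ D) (S : Finset ℕ)
    (h : ∀ r ∈ S, 1 ≤ r ∧ |D - crit (p + 1) r m| < C) :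
    (S.card : ℝ) ≤ (p + 1) * (2 * C) * (D + C) ^ p / (m : ℝ) ^ (p + 1) + 1 := by
  have hmR : (1 : ℝ) ≤ m := by exact_mod_cast hm
  have hPP : (m : ℝ) ^ (p + 1) ≤ PP p m := PP_lower p (by positivity)
  have hmp : (0 : ℝ) < (m : ℝ) ^ (p + 1) := by positivity
  have hPP0 : 0 < PP p m := lt_of_lt_of_le hmp hPP
  have hC : (0 : ℝ) ≤ C := Nat.cast_nonneg C
  set a : ℝ := max (D - C) 0 with ha
  have ha0 : 0 ≤ a := le_max_right _ _
  have hab : a ≤ D + C := max_le (by linarith) (by linarith)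
  have hbc : D + C ≤ a + 2 * C := by
    have := le_max_left (D - C) 0
    linarith
  set L : ℝ := ((D + C) ^ (p + 1) - a ^ (p + 1)) / PP p m with hL
  have hL0 : 0 ≤ L := div_nonneg (sub_nonneg.2 (pow_le_pow_left₀ ha0 hab _)) hPP0.le
  have hL1 : L ≤ (p + 1) * (2 * C) * (D + C) ^ p / (m : ℝ) ^ (p + 1) := by
    have h1 := pow_sub_le p ha0 hab hbc (by positivity)
    have h2 : 0 ≤ ((p : ℝ) + 1) * (2 * C) * (D + C) ^ p := by positivity
    calc L ≤ ((p + 1) * (2 * C) * (D + C) ^ p) / PP p m :=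
          div_le_div_of_nonneg_right h1 hPP0.le
      _ ≤ _ := div_le_div_of_nonneg_left h2 hmp hPP
  have h3 : (S.card : ℝ) ≤ max (L + 1) 0 := by
    refine card_interval S (a ^ (p + 1) / PP p m) L fun r hr => ?_
    obtain ⟨hr1, h1⟩ := h r hr
    have hT := crit_pow p r m
    have hT0 := crit_nonneg (p + 1) r m
    obtain ⟨h2, h3⟩ := abs_lt.1 h1
    constructor
    · rw [div_lt_iff₀ hPP0, ← hT]
      rcases le_total (D - C) 0 with h4 | h4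
      · have h5 : a = 0 := max_eq_right h4
        rw [h5, zero_pow (by omega), hT]
        have : (0 : ℝ) < r := by exact_mod_cast hr1
        positivity
      · have h5 : a = D - C := max_eq_left h4
        rw [h5]
        exact pow_lt_pow_left₀ (by linarith) (by linarith) (by omega)
    · have h4 : crit (p + 1) r m ^ (p + 1) < (D + C) ^ (p + 1) :=
        pow_lt_pow_left₀ (by linarith) hT0 (by omega)
      rw [hT] at h4
      have h5 : a ^ (p + 1) / PP p m + L = (D + C) ^ (p + 1) / PP p m := by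
        rw [hL, ← add_div]
        congr 1
        ring
      rw [h5, lt_div_iff₀ hPP0]
      exact h4
  rw [max_eq_left (by linarith)] at h3
  linarith

/-- The bad numbers for a given degree `δ`. -/
theorem card_bad_r (p : ℕ) (hp : 1 ≤ p) (C : ℕ) : ∃ A : ℕ, ∀ δ : ℕ, 1 ≤ δ →
    {r : ℕ | 3 ^ (p + 1) ≤ r ∧ ∃ m : ℕ, 1 ≤ m ∧
      |(δ : ℝ) + m - 1 - crit (p + 1) r m| < C}.Finite ∧
    ({r : ℕ | 3 ^ (p + 1) ≤ r ∧ ∃ m : ℕ, 1 ≤ m ∧
      |(δ : ℝ) + m - 1 - crit (p + 1) r m| < C}.ncard : ℝ) ≤ A * (δ : ℝ) ^ p := by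
  classical
  refine ⟨(p + 1) * (2 * C) * (2 * (1 + C)) ^ p * 2 + (1 + C), fun δ hδ => ?_⟩
  have hδR : (1 : ℝ) ≤ δ := by exact_mod_cast hδ
  have hC : (0 : ℝ) ≤ C := Nat.cast_nonneg C
  let E : ℕ → Finset ℕ := fun m => (range ((2 * (δ + C)) ^ (p + 1) + 1)).filter fun r : ℕ =>
    1 ≤ r ∧ |((δ : ℝ) + m - 1) - crit (p + 1) r m| < C
  have hsub : {r : ℕ | 3 ^ (p + 1) ≤ r ∧ ∃ m : ℕ, 1 ≤ m ∧
      |(δ : ℝ) + m - 1 - crit (p + 1) r m| < C} ⊆
      (((Finset.Icc 1 (δ + C)).biUnion E : Finset ℕ) : Set ℕ) := by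
    rintro r ⟨hr, m, hm, h⟩
    have hr1 : 1 ≤ r := le_trans (Nat.one_le_pow _ _ (by norm_num)) hr
    have hmR : (1 : ℝ) ≤ m := by exact_mod_cast hm
    have hT := crit_pow p r m
    have hT0 := crit_nonneg (p + 1) r m
    obtain ⟨h2, h3⟩ := abs_lt.1 h
    have hPP : (m : ℝ) ^ (p + 1) ≤ PP p m := PP_lower p (by positivity)
    have h3m : 3 * (m : ℝ) ≤ crit (p + 1) r m := by
      refine le_of_not_gt fun hcon => ?_
      have h4 : crit (p + 1) r m ^ (p + 1) < (3 * (m : ℝ)) ^ (p + 1) :=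
        pow_lt_pow_left₀ hcon hT0 (by omega)
      rw [hT, mul_pow] at h4
      have h5 : (3 : ℝ) ^ (p + 1) ≤ r := by exact_mod_cast hr
      have h6 : (3 : ℝ) ^ (p + 1) * (m : ℝ) ^ (p + 1) ≤ r * PP p m :=
        mul_le_mul h5 hPP (by positivity) (Nat.cast_nonneg _)
      linarith
    have hmb : (m : ℝ) ≤ δ + C := by linarith
    rw [mem_coe, mem_biUnion]
    refine ⟨m, Finset.mem_Icc.2 ⟨hm, by exact_mod_cast hmb⟩, mem_filter.2 ⟨mem_range.2 ?_, hr1, h⟩⟩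
    have h4 : crit (p + 1) r m ≤ 2 * (δ + C) := by linarith
    have h5 : (r : ℝ) ≤ ((2 * (δ + C)) ^ (p + 1) : ℕ) := by
      have h6 : crit (p + 1) r m ^ (p + 1) ≤ (2 * ((δ : ℝ) + C)) ^ (p + 1) :=
        pow_le_pow_left₀ hT0 h4 _
      rw [hT] at h6
      have h7 : (1 : ℝ) ≤ PP p m := (one_le_pow₀ hmR).trans hPP
      have h8 : (r : ℝ) ≤ r * PP p m := le_mul_of_one_le_right (Nat.cast_nonneg _) h7
      push_cast
      linarith
    have h6 : r ≤ (2 * (δ + C)) ^ (p + 1) := by exact_mod_cast h5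
    omega
  refine ⟨(Finset.finite_toSet _).subset hsub, ?_⟩
  have h1 := Set.ncard_le_ncard hsub (Finset.finite_toSet _)
  rw [Set.ncard_coe_finset] at h1
  have h2 : (((Finset.Icc 1 (δ + C)).biUnion E).card : ℝ) ≤
      ∑ m ∈ Finset.Icc 1 (δ + C), ((E m).card : ℝ) := by exact_mod_cast card_biUnion_le
  have h3 : ∀ m ∈ Finset.Icc 1 (δ + C), ((E m).card : ℝ) ≤
      (p + 1) * (2 * C) * (2 * ((δ : ℝ) + C)) ^ p * (1 / (m : ℝ) ^ 2) + 1 := by
    intro m hm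
    obtain ⟨hm1, hm2⟩ := Finset.mem_Icc.1 hm
    have hmR : (1 : ℝ) ≤ m := by exact_mod_cast hm1
    have hm2R : (m : ℝ) ≤ δ + C := by exact_mod_cast hm2
    have h4 := card_one p m hm1 C ((δ : ℝ) + m - 1) (by linarith) (E m)
      fun r hr => (mem_filter.1 hr).2
    refine h4.trans ?_
    have h5 : (m : ℝ) ^ 2 ≤ (m : ℝ) ^ (p + 1) := pow_le_pow_right₀ hmR (by omega)
    have h6 : ((δ : ℝ) + m - 1 + C) ^ p ≤ (2 * ((δ : ℝ) + C)) ^ p :=
      pow_le_pow_left₀ (by linarith) (by linarith) _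
    have h7 : 0 ≤ ((p : ℝ) + 1) * (2 * C) := by positivity
    have h8 : 0 ≤ ((p : ℝ) + 1) * (2 * C) * (2 * ((δ : ℝ) + C)) ^ p := by positivity
    have h9 : ((p : ℝ) + 1) * (2 * C) * ((δ : ℝ) + m - 1 + C) ^ p / (m : ℝ) ^ (p + 1) ≤
        (p + 1) * (2 * C) * (2 * ((δ : ℝ) + C)) ^ p * (1 / (m : ℝ) ^ 2) := by
      rw [mul_one_div]
      calc _ ≤ ((p : ℝ) + 1) * (2 * C) * (2 * ((δ : ℝ) + C)) ^ p / (m : ℝ) ^ (p + 1) :=
            div_le_div_of_nonneg_right (mul_le_mul_of_nonneg_left h6 h7) (by positivity)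
        _ ≤ _ := div_le_div_of_nonneg_left h8 (by positivity) h5
    linarith
  have h4 : ({r : ℕ | 3 ^ (p + 1) ≤ r ∧ ∃ m : ℕ, 1 ≤ m ∧
      |(δ : ℝ) + m - 1 - crit (p + 1) r m| < C}.ncard : ℝ) ≤
      ∑ m ∈ Finset.Icc 1 (δ + C),
        ((p + 1) * (2 * C) * (2 * ((δ : ℝ) + C)) ^ p * (1 / (m : ℝ) ^ 2) + 1) :=
    le_trans (by exact_mod_cast h1) (h2.trans (Finset.sum_le_sum h3))
  rw [Finset.sum_add_distrib, ← Finset.mul_sum, Finset.sum_const, Nat.card_Icc, nsmul_eq_mul,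
    mul_one] at h4
  have h5 := sum_inv (δ + C)
  have h6 : ∑ m ∈ Finset.Icc 1 (δ + C), (1 : ℝ) / (m : ℝ) ^ 2 ≤ 2 := by
    have : (0 : ℝ) ≤ 2 / (((δ + C : ℕ) : ℝ) + 1) := by positivity
    linarith
  have h7 : (2 * ((δ : ℝ) + C)) ^ p ≤ (2 * (1 + (C : ℝ))) ^ p * (δ : ℝ) ^ p := by
    rw [← mul_pow]
    refine pow_le_pow_left₀ (by positivity) ?_ _
    nlinarith
  have h8 : (δ : ℝ) ≤ (δ : ℝ) ^ p := le_self_pow₀ hδR (by omega)
  have h9 : ((δ + C + 1 - 1 : ℕ) : ℝ) ≤ (1 + C) * (δ : ℝ) ^ p := by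
    rw [Nat.add_sub_cancel]
    push_cast
    nlinarith
  have h10 : 0 ≤ ((p : ℝ) + 1) * (2 * C) := by positivity
  have h11 : ((p : ℝ) + 1) * (2 * C) * (2 * ((δ : ℝ) + C)) ^ p *
      ∑ m ∈ Finset.Icc 1 (δ + C), (1 : ℝ) / (m : ℝ) ^ 2 ≤
      ((p : ℝ) + 1) * (2 * C) * ((2 * (1 + (C : ℝ))) ^ p * (δ : ℝ) ^ p) * 2 :=
    mul_le_mul (mul_le_mul_of_nonneg_left h7 h10) h6 (Finset.sum_nonneg fun m _ => by positivity)
      (by positivity)
  refine h4.trans ((add_le_add h11 h9).trans (le_of_eq ?_))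
  push_cast
  ring

end Pool.Agent.H669.FW
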