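import Pool.Agent.H929.BW.All
import Pool.Agent.H669.FO.Last

/-!
Fröberg's formula outside a bounded window around the critical degree.
-/

set_option autoImplicit false

namespace Pool.Agent.H669.FW

open MvPolynomial Finset Pool.Agent.TH206.Fro Pool.Agent.TH176.FB Pool.Agent.H669.FO
open Pool.Agent.H929.BW
open Pool.Agent.H350R3.MG

/-- Points with a given value of the Hilbert function. -/
theorem pts {j r m k : ℕ} {h : ℤ} (hG : GV (j + 1) r m k h) :
    ∃ p : Fin r → Fin (j + 2) → ℂ,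
      (Module.finrank ℂ (homogeneousSubmodule (Fin (j + 2)) ℂ k) : ℤ) -
        Module.finrank ℂ (fat k (fun _ => m) p) = h := by
  obtain ⟨U, -, ⟨P, hP⟩, hU⟩ := (GV_iff _ _ _ _ _).1 hG
  refine ⟨fun i => (P i).rep, ?_⟩
  have h1 := hU P hP
  have h2 := forms_eq (d := k) m (fun i => (P i).rep) (fun i => (P i).rep_nonzero)
  simp only [Projectivization.mk_rep] at h2
  have h3 : fat k (fun _ => m) (fun i => (P i).rep) =
      Pool.Agent.H938R2.forms (j + 2) k (fun _ => m) (fun i => (P i).rep) := rfl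
  rw [h3, ← h2]
  exact h1

/-- Powers of linear forms from fat points. -/
theorem pts_ik {j r k δ : ℕ} {h : ℤ} (hG : GV (j + 1) r (k + 1 - δ) k h) :
    ∃ p : Fin r → Fin (j + 2) → ℂ,
      (Module.finrank ℂ (ik (fun i => lf (p i) ^ δ) k) : ℤ) = h := by
  obtain ⟨p, hp⟩ := pts hG
  refine ⟨p, ?_⟩
  have h1 := emsalem_iarrobino k (fun _ : Fin r => δ) p
  rw [← hp, ← h1]
  push_cast
  ring

/-- The powers of linear forms outside the window. -/
theorem window (j : ℕ) (hj : 1 ≤ j) : ∃ C : ℕ, ∀ r δ k : ℕ, 3 ^ (j + 1) ≤ r → 1 ≤ δ → δ ≤ k →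
    (C : ℝ) ≤ |(k : ℝ) - crit (j + 1) r (k + 1 - δ)| →
    ∃ p : Fin r → Fin (j + 2) → ℂ,
      min (Fintype.card (Ro (j + 2) k fun _ : Fin r => δ)) (Mon (j + 2) k).card ≤
        Module.finrank ℂ (ik (fun i => lf (p i) ^ δ) k) := by
  obtain ⟨C, hC, hmain⟩ := Pool.Agent.H929.BW.main j hj
  obtain ⟨B, hB⟩ := exists_nat_ge C
  refine ⟨B, fun r δ k hr hδ hk hwin => ?_⟩
  obtain ⟨h1, h2⟩ := hmain r (k + 1 - δ) k hr (by omega)
  rcases le_abs'.1 hwin with h | h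
  · obtain ⟨p, hp⟩ := pts_ik (h1 (by linarith))
    refine ⟨p, (min_le_right _ _).trans ?_⟩
    rw [card_Mon_choose (j + 1) k]
    have h3 : (Module.finrank ℂ (ik (fun i => lf (p i) ^ δ) k) : ℤ) =
      ((j + 1 + k).choose (j + 1) : ℕ) := hp
    have h4 : Module.finrank ℂ (ik (fun i => lf (p i) ^ δ) k) = (j + 1 + k).choose (j + 1) := by
      exact_mod_cast h3
    rw [h4, Nat.add_comm k]
  · obtain ⟨p, hp⟩ := pts_ik (h2 (by linarith))
    refine ⟨p, (min_le_left _ _).trans ?_⟩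
    rw [card_Ro_choose (j + 1) r k _ (by omega)]
    have h4 : Module.finrank ℂ (ik (fun i => lf (p i) ^ δ) k) =
        r * (j + 1 + (k + 1 - δ) - 1).choose (j + 1) := by exact_mod_cast hp
    rw [h4, sum_const, card_univ, Fintype.card_fin, smul_eq_mul]
    refine le_of_eq ?_
    congr 2
    omega

/-- A property of generic forms of degree `δ`. -/
def Gnr (K : Type) [Field K] (n r δ : ℕ) (T : (Fin r → MvPolynomial (Fin n) K) → Prop) : Prop :=
  ∃ P : MvPolynomial (Σ _ : Fin r, {m : Fin n →₀ ℕ // Finsupp.degree m = δ}) K, P ≠ 0 ∧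
    ∀ f : Fin r → MvPolynomial (Fin n) K, (∀ i, (f i).IsHomogeneous δ) →
      eval (fun s : (Σ _ : Fin r, {m : Fin n →₀ ℕ // Finsupp.degree m = δ}) =>
        (f s.1).coeff s.2.1) P ≠ 0 → T f

lemma Gnr.of {K : Type} [Field K] {n r δ : ℕ} {T : (Fin r → MvPolynomial (Fin n) K) → Prop}
    (h : ∀ F, T F) : Gnr K n r δ T := ⟨1, one_ne_zero, fun _ _ _ => h _⟩

lemma Gnr.mono {K : Type} [Field K] {n r δ : ℕ} {S T : (Fin r → MvPolynomial (Fin n) K) → Prop}
    (h : Gnr K n r δ S) (hST : ∀ f : Fin r → MvPolynomial (Fin n) K,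
      (∀ i, (f i).IsHomogeneous δ) → S f → T f) : Gnr K n r δ T := by
  obtain ⟨P, h0, h1⟩ := h
  exact ⟨P, h0, fun f hf hP => hST f hf (h1 f hf hP)⟩

lemma Gnr.all {K : Type} [Field K] {n r δ : ℕ} (B : ℕ)
    {T : ℕ → (Fin r → MvPolynomial (Fin n) K) → Prop} (h : ∀ k, Gnr K n r δ (T k)) :
    Gnr K n r δ (fun F => ∀ k < B, T k F) := by
  classical
  choose P h0 h1 using h
  refine ⟨∏ k ∈ Finset.range B, P k, Finset.prod_ne_zero_iff.2 fun k _ => h0 k,
    fun f hf hP k hk => h1 k f hf ?_⟩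
  rw [map_prod, Finset.prod_ne_zero_iff] at hP
  exact hP k (Finset.mem_range.2 hk)

lemma Gnr.and {K : Type} [Field K] {n r δ : ℕ} {S T : (Fin r → MvPolynomial (Fin n) K) → Prop}
    (h : Gnr K n r δ S) (h' : Gnr K n r δ T) : Gnr K n r δ (fun F => S F ∧ T F) := by
  obtain ⟨P, h0, h1⟩ := h
  obtain ⟨Q, h2, h3⟩ := h'
  refine ⟨P * Q, mul_ne_zero h0 h2, fun f hf hP => ?_⟩
  rw [map_mul] at hP
  exact ⟨h1 f hf (left_ne_zero_of_mul hP), h3 f hf (right_ne_zero_of_mul hP)⟩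

/-- From the rank bound in the degrees smaller than `2 δ` and the formula beyond. -/
lemma formula_of {K : Type} [Field K] {n r δ : ℕ} (hn : 2 ≤ n) (S : ℕ → Prop)
    (F : Fin r → MvPolynomial (Fin n) K) (hF : ∀ i, (F i).IsHomogeneous δ)
    (h1 : ∀ k < 2 * δ, S k → δ ≤ k →
      min (Fintype.card (Ro n k fun _ : Fin r => δ)) (Mon n k).card ≤
        Module.finrank K (ik F k))
    (h2 : ∀ k, 2 * δ ≤ k → hilb F k = fro n (fun _ : Fin r => δ) k) :
    ∀ k, S k → hilb F k = fro n (fun _ : Fin r => δ) k := by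
  intro k hk
  rcases lt_or_ge k (2 * δ) with h | h
  · refine hilb_eq K n r k (fun _ => δ) (by omega) (fun _ => h) F hF ?_
    rcases lt_or_ge k δ with h' | h'
    · refine (min_le_left _ _).trans ?_
      rw [card_Ro]
      refine (Finset.sum_eq_zero fun i _ => if_neg (by omega)).le.trans (Nat.zero_le _)
    · exact h1 k h hk h'
  · exact h2 k h

/-- The formula for generic forms and for arbitrary forms in general position. -/
def Both (n r δ : ℕ) (S : ℕ → Prop) : Prop :=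
  ∀ (K : Type) [Field K] [CharZero K],
    Gnr K n r δ (fun F => ∀ k, S k → hilb F k = fro n (fun _ : Fin r => δ) k) ∧
    ∀ f : Fin r → MvPolynomial (Fin n) K, (∀ i, (f i).IsHomogeneous δ) → (∀ i, f i ≠ 0) →
      Gen f (fun F => ∀ k, S k → hilb F k = fro n (fun _ : Fin r => δ) k)

lemma Both.mono {n r δ : ℕ} {S S' : ℕ → Prop} (h : Both n r δ S) (hS : ∀ k, S' k → S k) :
    Both n r δ S' := fun K _ _ =>
  ⟨(h K).1.mono fun _ _ hf k hk => hf k (hS k hk),
    fun f hf hf0 => ((h K).2 f hf hf0).mono fun _ hg k hk => hg k (hS k hk)⟩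

/-- Fröberg's formula outside the window. -/
theorem both (j : ℕ) : ∃ C : ℕ, ∀ r δ : ℕ, 3 ^ (j + 2) ≤ r → 1 ≤ δ →
    Both (j + 3) r δ (fun k => δ ≤ k →
      (C : ℝ) ≤ |(k : ℝ) - crit (j + 2) r (k + 1 - δ)|) := by
  obtain ⟨C, hC⟩ := window (j + 1) (by omega)
  refine ⟨C, fun r δ hr hδ K _ _ => ?_⟩
  -- the root of `r`
  have hr0 : 0 < r := lt_of_lt_of_le (by positivity) hr
  obtain ⟨h0, hu, -⟩ := Pool.Agent.H932R5.pos_root (E := j + 1) hr0
  obtain ⟨u, hu1⟩ : ∃ u : ℝ, (r : ℝ) ^ ((1 : ℝ) / (((j + 1 : ℕ) : ℝ) + 1)) = u := ⟨_, rfl⟩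
  rw [hu1] at h0 hu
  have hu3 : 3 ≤ u := by
    by_contra hcon
    push Not at hcon
    have h1 : u ^ (j + 1 + 1) < 3 ^ (j + 1 + 1) := pow_lt_pow_left₀ hcon h0.le (by omega)
    rw [hu] at h1
    have h2 : r < 3 ^ (j + 2) := by exact_mod_cast h1
    exact absurd hr (not_le.2 h2)
  have hδR : (1 : ℝ) ≤ δ := by exact_mod_cast hδ
  -- the high degrees
  have htop : ∀ k : ℕ, 2 * δ ≤ k →
      u ^ (j + 1) * k < ∑ _i : Fin r, ((k + 1 - δ : ℕ) : ℝ) := by
    intro k hk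
    rw [sum_const, card_univ, Fintype.card_fin, nsmul_eq_mul, ← hu]
    have hkR : 2 * (δ : ℝ) ≤ k := by exact_mod_cast hk
    have h1 : ((k + 1 - δ : ℕ) : ℝ) = k + 1 - δ := by
      rw [Nat.cast_sub (by omega)]
      push_cast
      ring
    rw [h1]
    have h2 : (k : ℝ) < u * (k + 1 - δ) := by nlinarith
    calc u ^ (j + 1) * (k : ℝ) < u ^ (j + 1) * (u * (k + 1 - δ)) :=
          mul_lt_mul_of_pos_left h2 (by positivity)
      _ = _ := by ring
  have hd : (∀ _i : Fin r, 3 * δ ≤ 4 * δ) ∨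
      u ^ (j + 1) * (2 * (δ : ℝ) - 1) < ∑ _i : Fin r, ((2 * δ - δ : ℕ) : ℝ) :=
    Or.inl fun _ => by omega
  constructor
  · obtain ⟨_k₀, P, hP, hP2⟩ := Pool.Agent.TH176.RK.fro_final j K r δ 0 (fun _ => δ) u hu3 hu hδ
      (fun _ => le_rfl) hd
    have hA : Gnr K (j + 3) r δ (fun F => ∀ k, 2 * δ ≤ k →
        hilb F k = fro (j + 3) (fun _ : Fin r => δ) k) :=
      ⟨P, hP, fun f hf hfP k hk => hP2 f hf hfP k (Or.inr (Or.inl (htop k hk)))⟩
    have hB : ∀ k : ℕ, Gnr K (j + 3) r δ (fun F => δ ≤ k →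
        (C : ℝ) ≤ |(k : ℝ) - crit (j + 2) r (k + 1 - δ)| →
        min (Fintype.card (Ro (j + 3) k fun _ : Fin r => δ)) (Mon (j + 3) k).card ≤
          Module.finrank K (ik F k)) := by
      intro k
      by_cases h : δ ≤ k ∧ (C : ℝ) ≤ |(k : ℝ) - crit (j + 2) r (k + 1 - δ)|
      · obtain ⟨p, hp⟩ := hC r δ k hr hδ h.1 h.2
        obtain ⟨Q, hQ, hQ2⟩ := spec' K ℂ (j + 3) r k (fun _ => δ) (fun i => lf (p i) ^ δ)
          (fun i => by
            have := (lf_hom (p i)).pow δ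
            rwa [one_mul] at this)
        exact ⟨Q, hQ, fun f hf hfQ _ _ => hp.trans (hQ2 f hf hfQ)⟩
      · exact Gnr.of fun F h1 h2 => absurd ⟨h1, h2⟩ h
    exact (hA.and (Gnr.all (2 * δ) hB)).mono fun f hf hg =>
      formula_of (by omega) _ f hf (fun k hk hS hδk => hg.2 k hk hδk (hS hδk)) hg.1
  · intro f hf hf0
    obtain ⟨_k₀, hm⟩ := manyO j K r δ 0 (fun _ => δ) u hu3 hu hδ (fun _ => le_rfl) hd
    have hA := hm f hf hf0
    have hB : ∀ k : ℕ, Gen f (fun F => δ ≤ k →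
        (C : ℝ) ≤ |(k : ℝ) - crit (j + 2) r (k + 1 - δ)| →
        min (Fintype.card (Ro (j + 3) k fun _ : Fin r => δ)) (Mon (j + 3) k).card ≤
          Module.finrank K (ik F k)) := by
      intro k
      by_cases h : δ ≤ k ∧ (C : ℝ) ≤ |(k : ℝ) - crit (j + 2) r (k + 1 - δ)|
      · obtain ⟨p, hp⟩ := hC r δ k hr hδ h.1 h.2
        exact (Gen.spec K ℂ k (fun _ => δ) p f hf hf0).mono fun g hg _ _ => hp.trans hg
      · exact Gen.of fun F h1 h2 => absurd ⟨h1, h2⟩ h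
    exact (hA.and (Gen.all (2 * δ) hB)).mono fun g hg =>
      formula_of (by omega) _ _ (fun i => move_hom _ (hf i))
        (fun k hk hS hδk => hg.2 k hk hδk (hS hδk))
        (fun k hk => hg.1 k (Or.inr (Or.inl (htop k hk))))

end Pool.Agent.H669.FW
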