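import Pool.Agent.H929.BW.All

/-!
The critical degree grows at least linearly, with slope the root of the number of the points.
-/

set_option autoImplicit false

namespace Pool.Agent.H669.FW

open Finset Pool.Agent.H929.BW

/-- Superadditivity of the geometric mean. -/
theorem geom_add {N : ℕ} (hN : 1 ≤ N) (a : ℕ → ℝ) (ha : ∀ i ∈ range N, 0 < a i) {x S Q : ℝ}
    (hx : 0 ≤ x) (hS : 0 ≤ S) (hQ : 0 ≤ Q) (h1 : S ^ N = ∏ i ∈ range N, a i)
    (h2 : Q ^ N = ∏ i ∈ range N, (a i + x)) : S + x ≤ Q := by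
  have hN0 : (N : ℝ) ≠ 0 := by positivity
  have hax : ∀ i ∈ range N, 0 < a i + x := fun i hi => by have := ha i hi; linarith
  have hQpos : 0 < Q := by
    rcases hQ.lt_or_eq with h | h
    · exact h
    · exfalso
      rw [← h, zero_pow (by omega)] at h2
      exact (prod_pos hax).ne h2
  have hw : ∀ i ∈ range N, 0 ≤ (N : ℝ)⁻¹ := fun _ _ => by positivity
  have hw' : ∑ _i ∈ range N, (N : ℝ)⁻¹ = 1 := by
    rw [sum_const, card_range, nsmul_eq_mul, mul_inv_cancel₀ hN0]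
  have h3 := Real.geom_mean_le_arith_mean_weighted (range N) (fun _ => (N : ℝ)⁻¹)
    (fun i => a i / (a i + x)) hw hw' (fun i hi => div_nonneg (ha i hi).le (hax i hi).le)
  have h4 := Real.geom_mean_le_arith_mean_weighted (range N) (fun _ => (N : ℝ)⁻¹)
    (fun i => x / (a i + x)) hw hw' (fun i hi => div_nonneg hx (hax i hi).le)
  rw [Real.finsetProd_rpow _ _ (fun i hi => div_nonneg (ha i hi).le (hax i hi).le),
    prod_div_distrib, ← h1, ← h2, ← div_pow,
    Real.pow_rpow_inv_natCast (div_nonneg hS hQ) (by omega)] at h3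
  rw [Real.finsetProd_rpow _ _ (fun i hi => div_nonneg hx (hax i hi).le),
    prod_div_distrib, ← h2, prod_const, card_range, ← div_pow,
    Real.pow_rpow_inv_natCast (div_nonneg hx hQ) (by omega)] at h4
  have h5 : (∑ i ∈ range N, (N : ℝ)⁻¹ * (a i / (a i + x))) +
      ∑ i ∈ range N, (N : ℝ)⁻¹ * (x / (a i + x)) = 1 := by
    rw [← sum_add_distrib, ← hw']
    refine sum_congr rfl fun i hi => ?_
    have h6 := (hax i hi).ne'
    rw [← mul_add, ← add_div, div_self h6, mul_one]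
  have h6 : S / Q + x / Q ≤ 1 := by linarith
  rw [← add_div, div_le_one hQpos] at h6
  exact h6

/-- The growth of the critical degree. -/
theorem crit_add {j r m x : ℕ} {ρ : ℝ} (hρ : 0 < ρ) (hr : ρ ^ (j + 1) = r) (hm : 1 ≤ m) :
    crit (j + 1) r m + ρ * x ≤ crit (j + 1) r (m + x) := by
  have hmR : (1 : ℝ) ≤ m := by exact_mod_cast hm
  have h1 := crit_pow j r m
  have h2 := crit_pow j r (m + x)
  have hρp : 0 < ρ ^ (j + 1) := by positivity
  have h3 := geom_add (N := j + 1) (by omega) (fun i => (m : ℝ) + i) (fun i _ => by positivity)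
    (x := x) (S := crit (j + 1) r m / ρ) (Q := crit (j + 1) r (m + x) / ρ) (Nat.cast_nonneg _)
    (div_nonneg (crit_nonneg _ _ _) hρ.le) (div_nonneg (crit_nonneg _ _ _) hρ.le) (by
      rw [div_pow, h1, ← hr, mul_div_cancel_left₀ _ hρp.ne']
      rfl) (by
      rw [div_pow, h2, ← hr, mul_div_cancel_left₀ _ hρp.ne']
      unfold PP
      refine prod_congr rfl fun i _ => ?_
      push_cast
      ring)
  rw [le_div_iff₀ hρ, add_mul, div_mul_cancel₀ _ hρ.ne'] at h3
  linarith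

/-- The critical degree is at least `ρ m`. -/
theorem le_crit_mul {j r m : ℕ} {ρ : ℝ} (hρ : 0 < ρ) (hr : ρ ^ (j + 1) = r) :
    ρ * m ≤ crit (j + 1) r m :=
  le_crit (crit_nonneg _ _ _) hρ (Nat.cast_nonneg _) hr (crit_pow j r m)

/-- The pairs with `|k - T(m)| < C`. -/
theorem card_near (T : ℝ) (C B : ℕ) :
    ((range B).filter fun k : ℕ => |(k : ℝ) - T| < C).card ≤ 2 * C := by
  classical
  have h : (((range B).filter fun k : ℕ => |(k : ℝ) - T| < C).image fun k : ℕ => (k : ℤ)) ⊆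
      Finset.Icc (⌊T⌋ - C + 1) (⌈T⌉ + C - 1) := by
    intro z hz
    obtain ⟨k, hk, rfl⟩ := mem_image.1 hz
    have h1 := (mem_filter.1 hk).2
    rw [abs_lt] at h1
    rw [Finset.mem_Icc]
    constructor
    · have h2 : ((⌊T⌋ - C : ℤ) : ℝ) < ((k : ℤ) : ℝ) := by
        push_cast
        have := Int.floor_le T
        linarith
      have h3 : ⌊T⌋ - C < (k : ℤ) := by exact_mod_cast h2
      omega
    · have h2 : ((k : ℤ) : ℝ) < ((⌈T⌉ + C : ℤ) : ℝ) := by
        push_cast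
        have := Int.le_ceil T
        linarith
      have h3 : (k : ℤ) < ⌈T⌉ + C := by exact_mod_cast h2
      omega
  have h1 := card_le_card h
  rw [card_image_of_injective _ (fun a b hab => by exact_mod_cast hab), Int.card_Icc] at h1
  have h2 := Int.ceil_le_floor_add_one T
  omega

/-- The exceptional values of `δ`. -/
theorem card_bad {j r : ℕ} {ρ : ℝ} (hρ : 1 < ρ) (hr : ρ ^ (j + 1) = r) (C X : ℕ) :
    (ρ - 1) * (Set.ncard {δ : ℕ | 1 ≤ δ ∧ δ ≤ X ∧ ∃ m : ℕ, 1 ≤ m ∧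
      |(δ : ℝ) + m - 1 - crit (j + 1) r m| < C} : ℝ) ≤ 2 * C * (X + C) := by
  classical
  have hρ0 : 0 < ρ := by linarith
  have hρ1 : 0 < ρ - 1 := by linarith
  set M := ⌊((X : ℝ) + C) / (ρ - 1)⌋₊ with hM
  let E : ℕ → Finset ℕ := fun m =>
    (range (X + m + 1)).filter fun k : ℕ => |(k : ℝ) - crit (j + 1) r m| < C
  have hsub : {δ : ℕ | 1 ≤ δ ∧ δ ≤ X ∧ ∃ m : ℕ, 1 ≤ m ∧
      |(δ : ℝ) + m - 1 - crit (j + 1) r m| < C} ⊆
      (((Finset.Icc 1 M).biUnion fun m => (E m).image fun k => k + 1 - m : Finset ℕ) : Set ℕ) := by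
    rintro δ ⟨hδ, hδX, m, hm, h⟩
    rw [mem_coe, mem_biUnion]
    refine ⟨m, Finset.mem_Icc.2 ⟨hm, ?_⟩, ?_⟩
    · rw [hM]
      refine Nat.le_floor ?_
      rw [le_div_iff₀ hρ1]
      have h1 := le_crit_mul (m := m) hρ0 hr
      have h2 := (abs_lt.1 h).1
      have h3 : (δ : ℝ) ≤ X := by exact_mod_cast hδX
      nlinarith
    · rw [mem_image]
      refine ⟨δ + m - 1, mem_filter.2 ⟨mem_range.2 (by omega), ?_⟩, by omega⟩
      have e : ((δ + m - 1 : ℕ) : ℝ) = (δ : ℝ) + m - 1 := by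
        rw [Nat.cast_sub (by omega)]
        push_cast
        ring
      rw [e]
      exact h
  have h1 := Set.ncard_le_ncard hsub (Finset.finite_toSet _)
  rw [Set.ncard_coe_finset] at h1
  have h2 : ((Finset.Icc 1 M).biUnion fun m => (E m).image fun k => k + 1 - m).card ≤
      M * (2 * C) := by
    refine (card_biUnion_le).trans ?_
    have h3 : ∀ m ∈ Finset.Icc 1 M, ((E m).image fun k => k + 1 - m).card ≤ 2 * C :=
      fun m _ => card_image_le.trans (card_near _ _ _)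
    refine (sum_le_sum h3).trans ?_
    rw [sum_const, Nat.card_Icc, smul_eq_mul]
    exact Nat.mul_le_mul_right _ (by omega)
  have h3 : (Set.ncard {δ : ℕ | 1 ≤ δ ∧ δ ≤ X ∧ ∃ m : ℕ, 1 ≤ m ∧
      |(δ : ℝ) + m - 1 - crit (j + 1) r m| < C} : ℝ) ≤ M * (2 * C) := by
    exact_mod_cast h1.trans h2
  have h4 : (M : ℝ) * (ρ - 1) ≤ X + C := by
    rw [← le_div_iff₀ hρ1]
    exact Nat.floor_le (by positivity)
  have h5 : (0 : ℝ) ≤ 2 * C := by positivity
  calc _ ≤ (ρ - 1) * (M * (2 * C)) := mul_le_mul_of_nonneg_left h3 hρ1.le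
    _ = 2 * C * (M * (ρ - 1)) := by ring
    _ ≤ _ := mul_le_mul_of_nonneg_left h4 h5

end Pool.Agent.H669.FW
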