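import Pool.Agent.H669.FW.Pts
import Pool.Graph.R_seed8.TH176.RK.Fam2

/-!
Powers of generic linear forms outside a bounded window around the critical degree.
-/

set_option autoImplicit false

namespace Pool.Agent.H669.FW

open MvPolynomial Finset Pool.Agent.TH206.Fro Pool.Agent.TH176.FB Pool.Agent.H669.FO
open Pool.Agent.H929.BW

/-- Points over one field of characteristic zero can be replaced by general points over another
one. -/
theorem points' (K L : Type) [Field K] [CharZero K] [Field L] [CharZero L] (n r k : ℕ)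
    (d : Fin r → ℕ) (p : Fin r → Fin n → L) :
    ∃ P : MvPolynomial (Fin r × Fin n) K, P ≠ 0 ∧ ∀ a : Fin r × Fin n → K, eval a P ≠ 0 →
      Module.finrank L (ik (fun i => lf (p i) ^ d i) k) ≤
      Module.finrank K (ik (fun i => lf (fun j => a (i, j)) ^ d i) k) := by
  classical
  have hom : ∀ (F : Type) [Field F] (p : Fin r → Fin n → F) (i : Fin r),
      (lf (p i) ^ d i).IsHomogeneous (d i) := by
    intro F _ p i
    have h := (lf_hom (p i)).pow (d i)
    rwa [one_mul] at h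
  obtain ⟨f, g, hfg⟩ := exists_minor
    (Mx d k (fun s : Io n d => (lf (p s.1) ^ d s.1).coeff s.2.1)) _ le_rfl
  let A := MvPolynomial (Fin r × Fin n) ℤ
  let F : Fin r → MvPolynomial (Fin n) A := fun i =>
    (∑ j, C (X (i, j) : MvPolynomial (Fin r × Fin n) ℤ) * X j) ^ d i
  have hF : ∀ (M : Type) [Field M] (q : Fin r → Fin n → M) (i : Fin r),
      MvPolynomial.map (eval₂Hom (Int.castRingHom M) (fun x : Fin r × Fin n => q x.1 x.2)) (F i) =
        lf (q i) ^ d i := by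
    intro M _ q i
    simp only [F]
    rw [map_pow, map_sum]
    congr 1
    unfold lf
    refine Finset.sum_congr rfl fun j _ => ?_
    rw [map_mul, map_C, map_X]
    congr 2
    rw [MvPolynomial.coe_eval₂Hom, eval₂_X]
  have hdet : ∀ (M : Type) [Field M] (q : Fin r → Fin n → M),
      (eval₂Hom (Int.castRingHom M) (fun x : Fin r × Fin n => q x.1 x.2))
        ((Mx d k (fun s : Io n d => (F s.1).coeff s.2.1)).submatrix f g).det =
      ((Mx d k (fun s : Io n d => (lf (q s.1) ^ d s.1).coeff s.2.1)).submatrix f g).det := by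
    intro M _ q
    rw [det_map]
    simp only [hF]
  obtain ⟨Q, hQ⟩ : ∃ Q : MvPolynomial (Fin r × Fin n) ℤ,
    Q = ((Mx d k (fun s : Io n d => (F s.1).coeff s.2.1)).submatrix f g).det := ⟨_, rfl⟩
  rw [← hQ] at hdet
  have hne : Q ≠ 0 := by
    intro h
    apply hfg
    rw [← hdet L p, h, map_zero]
  have hneK : MvPolynomial.map (Int.castRingHom K) Q ≠ 0 := fun h => hne
    (MvPolynomial.map_injective _ (RingHom.injective_int (Int.castRingHom K))
      (by rw [h, map_zero]))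
  refine ⟨_, hneK, fun q hq => ?_⟩
  unfold ik
  rw [hilb_thm n k r d L _ (hom L p), hilb_thm n k r d K _ (hom K _)]
  refine rank_ge_of_minor _ _ f g ?_
  rw [eval_map] at hq
  intro h0
  apply hq
  have h1 := hdet K (fun i j => q (i, j))
  rw [h0] at h1
  exact h1

/-- A property of the `δ`-th powers of generic linear forms. -/
def Lin (K : Type) [Field K] (n r δ : ℕ) (T : (Fin r → MvPolynomial (Fin n) K) → Prop) : Prop :=
  ∃ P : MvPolynomial (Fin r × Fin n) K, P ≠ 0 ∧ ∀ a : Fin r × Fin n → K, eval a P ≠ 0 →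
    T (fun i => lf (fun j => a (i, j)) ^ δ)

lemma Lin.of {K : Type} [Field K] {n r δ : ℕ} {T : (Fin r → MvPolynomial (Fin n) K) → Prop}
    (h : ∀ F, T F) : Lin K n r δ T := ⟨1, one_ne_zero, fun _ _ => h _⟩

lemma Lin.mono {K : Type} [Field K] {n r δ : ℕ} {S T : (Fin r → MvPolynomial (Fin n) K) → Prop}
    (h : Lin K n r δ S) (hST : ∀ f : Fin r → MvPolynomial (Fin n) K,
      (∀ i, (f i).IsHomogeneous δ) → S f → T f) : Lin K n r δ T := by
  obtain ⟨P, h0, h1⟩ := h
  refine ⟨P, h0, fun a ha => hST _ (fun i => ?_) (h1 a ha)⟩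
  have h := (lf_hom (fun j => a (i, j))).pow δ
  rwa [one_mul] at h

lemma Lin.all {K : Type} [Field K] {n r δ : ℕ} (B : ℕ)
    {T : ℕ → (Fin r → MvPolynomial (Fin n) K) → Prop} (h : ∀ k, Lin K n r δ (T k)) :
    Lin K n r δ (fun F => ∀ k < B, T k F) := by
  classical
  choose P h0 h1 using h
  refine ⟨∏ k ∈ Finset.range B, P k, Finset.prod_ne_zero_iff.2 fun k _ => h0 k,
    fun a ha k hk => h1 k a ?_⟩
  rw [map_prod, Finset.prod_ne_zero_iff] at ha
  exact ha k (Finset.mem_range.2 hk)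

lemma Lin.and {K : Type} [Field K] {n r δ : ℕ} {S T : (Fin r → MvPolynomial (Fin n) K) → Prop}
    (h : Lin K n r δ S) (h' : Lin K n r δ T) : Lin K n r δ (fun F => S F ∧ T F) := by
  obtain ⟨P, h0, h1⟩ := h
  obtain ⟨Q, h2, h3⟩ := h'
  refine ⟨P * Q, mul_ne_zero h0 h2, fun a ha => ?_⟩
  rw [map_mul] at ha
  exact ⟨h1 a (left_ne_zero_of_mul ha), h3 a (right_ne_zero_of_mul ha)⟩

/-- The formula for the powers of generic linear forms, outside the window. -/
theorem lin (j : ℕ) : ∃ C : ℕ, ∀ r δ : ℕ, 3 ^ (j + 2) ≤ r → 1 ≤ δ →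
    ∀ (K : Type) [Field K] [CharZero K], Lin K (j + 3) r δ (fun F => ∀ k, (δ ≤ k →
      (C : ℝ) ≤ |(k : ℝ) - crit (j + 2) r (k + 1 - δ)|) →
        hilb F k = fro (j + 3) (fun _ : Fin r => δ) k) := by
  obtain ⟨C, hC⟩ := window (j + 1) (by omega)
  refine ⟨C, fun r δ hr hδ K _ _ => ?_⟩
  -- the root of `r`
  have hr0 : 0 < r := lt_of_lt_of_le (by positivity) hr
  obtain ⟨h0, hu, -⟩ := Pool.Agent.H932R5.pos_root (E := j + 1) hr0
  obtain ⟨u, hu1⟩ : ∃ u : ℝ, (r : ℝ) ^ ((1 : ℝ) / (((j + 1 : ℕ) : ℝ) + 1)) = u := ⟨_, rfl⟩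
  rw [hu1] at h0 hu
  have hu3 : 3 ≤ u := by
    by_contra hcon
    push Not at hcon
    have h1 : u ^ (j + 1 + 1) < 3 ^ (j + 1 + 1) := pow_lt_pow_left₀ hcon h0.le (by omega)
    rw [hu] at h1
    have h2 : r < 3 ^ (j + 2) := by exact_mod_cast h1
    exact absurd hr (not_le.2 h2)
  have hδR : (1 : ℝ) ≤ δ := by exact_mod_cast hδ
  obtain ⟨_k₀, P, hP, hP2⟩ := Pool.Agent.TH176.RK.pow_lin j K r δ u hu3 hu hδ
  have hA : Lin K (j + 3) r δ (fun F => ∀ k, 2 * δ ≤ k →
      hilb F k = fro (j + 3) (fun _ : Fin r => δ) k) := by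
    refine ⟨P, hP, fun a ha k hk => hP2 a ha k (Or.inr (Or.inl ?_))⟩
    have hkR : 2 * (δ : ℝ) ≤ k := by exact_mod_cast hk
    nlinarith
  have hB : ∀ k : ℕ, Lin K (j + 3) r δ (fun F => δ ≤ k →
      (C : ℝ) ≤ |(k : ℝ) - crit (j + 2) r (k + 1 - δ)| →
      min (Fintype.card (Ro (j + 3) k fun _ : Fin r => δ)) (Mon (j + 3) k).card ≤
        Module.finrank K (ik F k)) := by
    intro k
    by_cases h : δ ≤ k ∧ (C : ℝ) ≤ |(k : ℝ) - crit (j + 2) r (k + 1 - δ)|
    · obtain ⟨p, hp⟩ := hC r δ k hr hδ h.1 h.2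
      obtain ⟨Q, hQ, hQ2⟩ := points' K ℂ (j + 3) r k (fun _ => δ) p
      exact ⟨Q, hQ, fun a ha _ _ => hp.trans (hQ2 a ha)⟩
    · exact Lin.of fun F h1 h2 => absurd ⟨h1, h2⟩ h
  exact (hA.and (Lin.all (2 * δ) hB)).mono fun f hf hg =>
    formula_of (by omega) _ f hf (fun k hk hS hδk => hg.2 k hk hδk (hS hδk)) hg.1

end Pool.Agent.H669.FW
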