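import Pool.Agent.H669.FW.Cnt

/-!
The exceptional degrees for given degree of the forms.
-/

set_option autoImplicit false

namespace Pool.Agent.H669.FW

open Finset Pool.Agent.H929.BW

theorem one_exc {j r δ C : ℕ} {ρ : ℝ} (hρ : 1 < ρ) (hr : ρ ^ (j + 1) = r) {k k' : ℕ}
    (hk : δ ≤ k) (hkk : k ≤ k') (h : |(k : ℝ) - crit (j + 1) r (k + 1 - δ)| < C)
    (h' : |(k' : ℝ) - crit (j + 1) r (k' + 1 - δ)| < C) :
    (ρ - 1) * ((k' : ℝ) - k) < 2 * C := by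
  have h1 := crit_add (j := j) (r := r) (m := k + 1 - δ) (x := k' - k) (by linarith) hr (by omega)
  have e : k + 1 - δ + (k' - k) = k' + 1 - δ := by omega
  rw [e, Nat.cast_sub hkk] at h1
  have h2 := (abs_lt.1 h).2
  have h3 := (abs_lt.1 h').1
  have h2' := (abs_lt.1 h).1
  linarith [h1, (abs_lt.1 h').2, h2, h3]

theorem exists_first {j r : ℕ} (δ C : ℕ) {ρ : ℝ} (hρ : 1 < ρ) (hr : ρ ^ (j + 1) = r) :
    ∃ k₀ : ℕ, ∀ k : ℕ, (k < k₀ ∨ 2 * (C : ℝ) ≤ (ρ - 1) * ((k : ℝ) - k₀)) → δ ≤ k →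
      (C : ℝ) ≤ |(k : ℝ) - crit (j + 1) r (k + 1 - δ)| := by
  classical
  by_cases hex : ∃ k : ℕ, δ ≤ k ∧ |(k : ℝ) - crit (j + 1) r (k + 1 - δ)| < C
  · refine ⟨Nat.find hex, fun k hk hδ => ?_⟩
    obtain ⟨h1, h2⟩ := Nat.find_spec hex
    by_contra hcon
    push Not at hcon
    rcases hk with h | h
    · exact Nat.find_min hex h ⟨hδ, hcon⟩
    · have h3 : Nat.find hex ≤ k := Nat.find_min' hex ⟨hδ, hcon⟩
      exact absurd (one_exc hρ hr h1 h3 h2 hcon) (not_lt.2 h)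
  · push Not at hex
    exact ⟨0, fun k _ hδ => hex k hδ⟩

/-- The root of a number of at least `3 ^ (j + 2)`. -/
theorem root {j r : ℕ} (hr : 3 ^ (j + 2) ≤ r) :
    3 ≤ (r : ℝ) ^ ((1 : ℝ) / (((j + 3 : ℕ) : ℝ) - 1)) ∧
      ((r : ℝ) ^ ((1 : ℝ) / (((j + 3 : ℕ) : ℝ) - 1))) ^ (j + 2) = r := by
  have e : ((j + 3 : ℕ) : ℝ) - 1 = ((j + 2 : ℕ) : ℝ) := by push_cast; ring
  rw [e]
  have h1 : ((r : ℝ) ^ ((1 : ℝ) / ((j + 2 : ℕ) : ℝ))) ^ (j + 2) = r := by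
    rw [one_div]
    exact Real.rpow_inv_natCast_pow (Nat.cast_nonneg _) (by omega)
  refine ⟨?_, h1⟩
  have h0 : 0 ≤ (r : ℝ) ^ ((1 : ℝ) / ((j + 2 : ℕ) : ℝ)) := Real.rpow_nonneg (Nat.cast_nonneg _) _
  by_contra hcon
  push Not at hcon
  have h2 := pow_lt_pow_left₀ hcon h0 (by omega : j + 2 ≠ 0)
  rw [h1] at h2
  have h3 : r < 3 ^ (j + 2) := by exact_mod_cast h2
  omega

/-- The critical degree as a root of a product. -/
theorem crit_eq (j r m : ℕ) : crit (j + 2) r m =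
    ((r : ℝ) * ∏ i ∈ Finset.range (j + 3 - 1), ((m : ℝ) + i)) ^
      ((1 : ℝ) / (((j + 3 : ℕ) : ℝ) - 1)) := by
  have e : ((j + 3 : ℕ) : ℝ) - 1 = ((j + 2 : ℕ) : ℝ) := by push_cast; ring
  rw [e]
  unfold crit
  have h := PP_nat (j + 1) m
  have h1 : (((j + 2).factorial * (r * (j + 2 + m - 1).choose (j + 2)) : ℕ) : ℝ) =
      (r : ℝ) * ∏ i ∈ Finset.range (j + 3 - 1), ((m : ℝ) + i) := by
    have h2 : ∏ i ∈ Finset.range (j + 3 - 1), ((m : ℝ) + i) = PP (j + 1) m := rfl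
    rw [h2, ← h]
    push_cast
    ring
  rw [h1]

end Pool.Agent.H669.FW
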