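import Pool.Agent.H669.FW.Pts
import Pool.Graph.R_seed8.TH176.RK.Fam2

/-!
Powers of generic forms outside a bounded window around the critical degree.
-/

set_option autoImplicit false

namespace Pool.Agent.H669.FW

open MvPolynomial Finset Pool.Agent.TH206.Fro Pool.Agent.TH176.FB Pool.Agent.TH176.RK
open Pool.Agent.H929.BW

/-- The formula for families of forms which contain the powers of linear forms. -/
theorem fam (j : ℕ) : ∃ C : ℕ, ∀ r δ : ℕ, 3 ^ (j + 2) ≤ r → 1 ≤ δ →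
    ∀ (K : Type) [Field K] [CharZero K] {τ : Type}
      (φ : Io (j + 3) (fun _ : Fin r => δ) → MvPolynomial τ ℤ), Pows (fun _ : Fin r => δ) φ →
    ∃ P : MvPolynomial τ K, P ≠ 0 ∧ ∀ (t : τ → K) (f : Fin r → MvPolynomial (Fin (j + 3)) K),
      (∀ i, (f i).IsHomogeneous δ) →
      (∀ s : Io (j + 3) (fun _ : Fin r => δ), (f s.1).coeff s.2.1 = aeval t (φ s)) →
      MvPolynomial.eval t P ≠ 0 → ∀ k, (δ ≤ k →
        (C : ℝ) ≤ |(k : ℝ) - crit (j + 2) r (k + 1 - δ)|) →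
          hilb f k = fro (j + 3) (fun _ : Fin r => δ) k := by
  classical
  obtain ⟨C, hC⟩ := Pool.Agent.H669.FW.window (j + 1) (by omega)
  refine ⟨C, fun r δ hr hδ K _ _ τ φ hφ => ?_⟩
  -- the root of `r`
  have hr0 : 0 < r := lt_of_lt_of_le (by positivity) hr
  obtain ⟨h0, hu, -⟩ := Pool.Agent.H932R5.pos_root (E := j + 1) hr0
  obtain ⟨u, hu1⟩ : ∃ u : ℝ, (r : ℝ) ^ ((1 : ℝ) / (((j + 1 : ℕ) : ℝ) + 1)) = u := ⟨_, rfl⟩
  rw [hu1] at h0 hu
  have hu3 : 3 ≤ u := by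
    by_contra hcon
    push Not at hcon
    have h1 : u ^ (j + 1 + 1) < 3 ^ (j + 1 + 1) := pow_lt_pow_left₀ hcon h0.le (by omega)
    rw [hu] at h1
    have h2 : r < 3 ^ (j + 2) := by exact_mod_cast h1
    exact absurd hr (not_le.2 h2)
  have hδR : (1 : ℝ) ≤ δ := by exact_mod_cast hδ
  obtain ⟨_k₀, P, hP, hP2⟩ := fam_eq j K r δ u hu3 hu hδ φ hφ
  have hB : ∀ k : ℕ, ∃ Q : MvPolynomial τ K, Q ≠ 0 ∧
      ∀ (t : τ → K) (f : Fin r → MvPolynomial (Fin (j + 3)) K),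
      (∀ i, (f i).IsHomogeneous δ) →
      (∀ s : Io (j + 3) (fun _ : Fin r => δ), (f s.1).coeff s.2.1 = aeval t (φ s)) →
      MvPolynomial.eval t Q ≠ 0 → (δ ≤ k →
      (C : ℝ) ≤ |(k : ℝ) - crit (j + 2) r (k + 1 - δ)| →
      min (Fintype.card (Ro (j + 3) k fun _ : Fin r => δ)) (Mon (j + 3) k).card ≤
        Module.finrank K (ik f k)) := by
    intro k
    by_cases h : δ ≤ k ∧ (C : ℝ) ≤ |(k : ℝ) - crit (j + 2) r (k + 1 - δ)|
    · obtain ⟨p, hp⟩ := hC r δ k hr hδ h.1 h.2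
      obtain ⟨t0, ht0⟩ := hφ ℂ p
      obtain ⟨Q, hQ, hQ2⟩ := spec_fam K ℂ (j + 3) r k (fun _ => δ) φ t0
        (fun i => lf (p i) ^ δ) (fun i => by
          have := (lf_hom (p i)).pow δ
          rwa [one_mul] at this) ht0
      exact ⟨Q, hQ, fun t f hf hc ht _ _ => hp.trans (hQ2 t f hf hc ht)⟩
    · exact ⟨1, one_ne_zero, fun _ _ _ _ _ h1 h2 => absurd ⟨h1, h2⟩ h⟩
  choose Q hQ hQ2 using hB
  refine ⟨P * ∏ k ∈ Finset.range (2 * δ), Q k,
    mul_ne_zero hP (Finset.prod_ne_zero_iff.2 fun k _ => hQ k), fun t f hf hc ht => ?_⟩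
  rw [map_mul, map_prod] at ht
  have ht1 := left_ne_zero_of_mul ht
  have ht2 := Finset.prod_ne_zero_iff.1 (right_ne_zero_of_mul ht)
  refine formula_of (by omega) _ f hf (fun k hk hS hδk =>
    hQ2 k t f hf hc (ht2 k (Finset.mem_range.2 hk)) hδk (hS hδk)) fun k hk => ?_
  refine hP2 t f hf hc ht1 k (Or.inr (Or.inl ?_))
  have hkR : 2 * (δ : ℝ) ≤ k := by exact_mod_cast hk
  nlinarith

/-- The formula for the powers of generic forms. -/
theorem pw (j : ℕ) : ∃ C : ℕ, ∀ r a e : ℕ, 3 ^ (j + 2) ≤ r → 1 ≤ a → 1 ≤ e →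
    ∀ (K : Type) [Field K] [CharZero K],
    ∃ P : MvPolynomial (Io (j + 3) (fun _ : Fin r => a)) K, P ≠ 0 ∧
      ∀ g : Fin r → MvPolynomial (Fin (j + 3)) K, (∀ i, (g i).IsHomogeneous a) →
        MvPolynomial.eval (fun s : Io (j + 3) (fun _ : Fin r => a) => (g s.1).coeff s.2.1) P ≠ 0 →
        ∀ k, (a * e ≤ k → (C : ℝ) ≤ |(k : ℝ) - crit (j + 2) r (k + 1 - a * e)|) →
          hilb (fun i : Fin r => g i ^ e) k = fro (j + 3) (fun _ : Fin r => a * e) k := by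
  obtain ⟨C, hC⟩ := fam j
  refine ⟨C, fun r a e hr ha he K _ _ => ?_⟩
  obtain ⟨P, hP, hP2⟩ := hC r (a * e) hr (Nat.mul_pos ha he) K (phiF (j + 3) r a e)
    (pows_phiF a e)
  exact ⟨P, hP, fun g hg ht k hk => hP2 _ _ (fun i => (hg i).pow e)
    (fun s => aeval_phiF g hg s) ht k hk⟩

end Pool.Agent.H669.FW
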